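import Pool.Agent.H72.CombC

set_option autoImplicit false

namespace Pool.Agent.Results.MP_f10b34_al.Degrees

open Pool.Agent.H72.Comb

theorem result : degs False = {0} ∪ Set.Ici 1 ∧ degs True = Set.Ici 1 := final

end Pool.Agent.Results.MP_f10b34_al.Degrees
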